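import Pool.Agent.H30.SY.Stm2

/-!
# Project SY: module MED (medians of the passage times)
-/

set_option autoImplicit false

open MeasureTheory ProbabilityTheory Finset Filter
open scoped Topology Pointwise

namespace Pool.Agent.H29.SY

open Q70.Fp Pool.Agent.H30.SY

lemma half_union {Ω : Type*} [MeasurableSpace Ω] (μ : Measure Ω) [IsProbabilityMeasure μ] (A : ℕ → Set Ω)
    (hmono : Monotone A) (h : ∀ n, μ.real (A n) ≤ 1 / 2) : μ.real (⋃ n, A n) ≤ 1 / 2 := by
  have h1 := tendsto_measure_iUnion_atTop (μ := μ) hmono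
  have h2 := (ENNReal.tendsto_toReal (measure_ne_top μ (⋃ n, A n))).comp h1
  exact le_of_tendsto' h2 h

lemma median {Ω : Type*} [MeasurableSpace Ω] (μ : Measure Ω) [IsProbabilityMeasure μ] (f : Ω → ℝ)
    (hf : Measurable f) (a b : ℝ) (ha : μ.real {w | f w < a} ≤ 1 / 2) (hb : μ.real {w | b ≤ f w} < 1 / 2) :
    ∃ c : ℝ, a ≤ c ∧ c ≤ b ∧ μ.real {w | f w < c} ≤ 1 / 2 ∧ μ.real {w | c < f w} ≤ 1 / 2 := by
  have hcompl : ∀ x : ℝ, μ.real {w | f w < x} = 1 - μ.real {w | x ≤ f w} := by
    intro x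
    have h1 : {w | f w < x} = {w | x ≤ f w}ᶜ := by ext w; simp
    rw [h1, measureReal_compl (measurableSet_le measurable_const hf), probReal_univ]
  set S : Set ℝ := {x | μ.real {w | f w < x} ≤ 1 / 2} with hS
  have haS : a ∈ S := ha
  have hbS : ∀ x ∈ S, x ≤ b := by
    intro x hx
    by_contra hcon
    push Not at hcon
    have h1 : μ.real {w | f w < b} ≤ μ.real {w | f w < x} :=
      measureReal_mono (fun w (hw : f w < b) => lt_trans hw hcon) (measure_ne_top _ _)
    have h2 : μ.real {w | f w < x} ≤ 1 / 2 := hx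
    rw [hcompl b] at h1
    linarith
  have hbdd : BddAbove S := ⟨b, hbS⟩
  set c := sSup S with hc
  have hac : a ≤ c := le_csSup hbdd haS
  have hcb : c ≤ b := csSup_le ⟨a, haS⟩ hbS
  refine ⟨c, hac, hcb, ?_, ?_⟩
  · have h1 : {w | f w < c} = ⋃ n : ℕ, {w | f w < c - 1 / ((n : ℝ) + 1)} := by
      ext w
      simp only [Set.mem_ofPred_eq, Set.mem_iUnion]
      constructor
      · intro hw
        obtain ⟨n, hn⟩ := exists_nat_one_div_lt (sub_pos.2 hw)
        exact ⟨n, by linarith⟩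
      · rintro ⟨n, hn⟩
        have : (0 : ℝ) < 1 / ((n : ℝ) + 1) := by positivity
        linarith
    rw [h1]
    refine half_union μ _ ?_ ?_
    · intro m n hmn w hw
      simp only [Set.mem_ofPred_eq] at hw ⊢
      have : (1 : ℝ) / ((n : ℝ) + 1) ≤ 1 / ((m : ℝ) + 1) :=
        one_div_le_one_div_of_le (by positivity) (by
          have : (m : ℝ) ≤ n := by exact_mod_cast hmn
          linarith)
      linarith
    · intro n
      have h2 : (0 : ℝ) < 1 / ((n : ℝ) + 1) := by positivity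
      obtain ⟨x, hxS, hx⟩ := exists_lt_of_lt_csSup ⟨a, haS⟩ (show c - 1 / ((n : ℝ) + 1) < sSup S by
        rw [← hc]; linarith)
      exact (measureReal_mono (fun w (hw : f w < _) => lt_trans hw hx) (measure_ne_top _ _)).trans hxS
  · have h1 : {w | c < f w} = ⋃ n : ℕ, {w | c + 1 / ((n : ℝ) + 1) ≤ f w} := by
      ext w
      simp only [Set.mem_ofPred_eq, Set.mem_iUnion]
      constructor
      · intro hw
        obtain ⟨n, hn⟩ := exists_nat_one_div_lt (sub_pos.2 hw)
        exact ⟨n, by linarith⟩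
      · rintro ⟨n, hn⟩
        have : (0 : ℝ) < 1 / ((n : ℝ) + 1) := by positivity
        linarith
    rw [h1]
    refine half_union μ _ ?_ ?_
    · intro m n hmn w hw
      simp only [Set.mem_ofPred_eq] at hw ⊢
      have : (1 : ℝ) / ((n : ℝ) + 1) ≤ 1 / ((m : ℝ) + 1) :=
        one_div_le_one_div_of_le (by positivity) (by
          have : (m : ℝ) ≤ n := by exact_mod_cast hmn
          linarith)
      linarith
    · intro n
      have h2 : (0 : ℝ) < 1 / ((n : ℝ) + 1) := by positivity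
      have h3 : c + 1 / ((n : ℝ) + 1) ∉ S := fun h => by
        have := le_csSup hbdd h
        linarith
      have h4 : 1 / 2 < μ.real {w | f w < c + 1 / ((n : ℝ) + 1)} := by
        simpa [hS] using h3
      rw [hcompl] at h4
      linarith

theorem t_MED : S_MED := by
  intro v hv
  have h1 : nu.real {w | TT (pw w) 0 v < 3 * ((dd 0 v / 66 : ℕ) : ℝ)} ≤ 1 / 2 := by
    refine (low_le (m := dd 0 v / 66) (Nat.mul_div_le _ _)).trans ?_
    have h2 : 1 ≤ dd 0 v / 66 := by omega
    calc (1 / 2 : ℝ) ^ (dd 0 v / 66) ≤ (1 / 2) ^ 1 := pow_le_pow_of_le_one (by norm_num) (by norm_num) h2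
      _ = 1 / 2 := pow_one _
  have h2 : nu.real {w | 3 * (dd 0 v : ℝ) ≤ TT (pw w) 0 v} < 1 / 2 := by
    refine (straight (le_refl (dd 0 v))).trans_lt ?_
    calc (1 / 2 : ℝ) ^ (dd 0 v) ≤ (1 / 2) ^ 2 := pow_le_pow_of_le_one (by norm_num) (by norm_num) (by omega)
      _ < 1 / 2 := by norm_num
  exact median nu (fun w => TT (pw w) 0 v) (measurable_TT 0 v) _ _ h1 h2

end Pool.Agent.H29.SY
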