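import Pool.Agent.H30.SY.Stm5

set_option autoImplicit false

/-!
# Project SY: module U2 (uniform closeness to the medians)
-/

open MeasureTheory ProbabilityTheory Finset Filter
open scoped Topology Pointwise

namespace Pool.Agent.H29.SY.U2

open Q70.Fp Pool.Agent.H30.SY Pool.Agent.H69.FP

/-- the error term tends to zero -/
lemma err_tendsto (K : ℕ) : Tendsto (fun j : ℕ => 324 * (((j:ℝ) + 1) ^ (K + 1) * (3 / 4 : ℝ) ^ j)) atTop (𝓝 0) := by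
  have h1 := tendsto_pow_const_mul_const_pow_of_abs_lt_one (K + 1) (r := (3 / 4 : ℝ))
    (by rw [abs_of_pos (by norm_num)]; norm_num)
  have h2 := h1.comp (tendsto_add_atTop_nat 1)
  have h3 := h2.const_mul (324 * (4 / 3) : ℝ)
  rw [mul_zero] at h3
  refine h3.congr fun j => ?_
  simp only [Function.comp]
  push_cast
  rw [pow_succ (3 / 4 : ℝ) j]
  ring

theorem core (hU1 : S_U1) (m : ℤ × ℤ → ℝ) (hm0 : ∀ v, 0 ≤ m v) (hm3 : ∀ v, m v ≤ 3 * (dd 0 v : ℝ))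
    (hmed : ∀ v : ℤ × ℤ, 132 ≤ dd 0 v → nu.real {w | TT (pw w) 0 v < m v} ≤ 1 / 2 ∧
      nu.real {w | m v < TT (pw w) 0 v} ≤ 1 / 2)
    (n N J : ℕ) (s r : ℝ) (hs : 0 ≤ s) (hJ : 132 ≤ J) (hnN : n ≤ N) (hN : n + (133 * J + 2) * n ≤ N)
    (h1 : 133 * (J : ℝ) * s ≤ r) (h2 : s ≤ r) (h3 : 3 * (J : ℝ) ≤ r) :
    nu.real {w : Ed → ℝ | BS (pw w) N s} ≤
      nu.real {w : Ed → ℝ | ∀ x ∈ ball n 0, ∀ v ∈ ball n 0,
        |TT (pw w) x (x + v) - m v| ≤ r ∧ |TT (pw w) x (x + v + v) - 2 * TT (pw w) x (x + v)| ≤ r} +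
      (2 * (n:ℝ) + 1) ^ 4 * (4 * ((J:ℝ) + 1) * (3 / 4) ^ J) := by
  classical
  set G : Set (Ed → ℝ) := {w : Ed → ℝ | ∀ x ∈ ball n 0, ∀ v ∈ ball n 0,
        |TT (pw w) x (x + v) - m v| ≤ r ∧ |TT (pw w) x (x + v + v) - 2 * TT (pw w) x (x + v)| ≤ r} with hG
  set Bad : (ℤ × ℤ) × (ℤ × ℤ) → Set (Ed → ℝ) := fun q =>
    if J ≤ dd 0 q.2 then {w | BS (pw w) N s ∧ 133 * (J:ℝ) * s < |TT (pw w) q.1 (q.1 + q.2) - m q.2|}
    else {w | 3 * (J:ℝ) ≤ TT (pw w) q.1 (q.1 + q.2)} with hBad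
  have hsub : {w : Ed → ℝ | BS (pw w) N s} ⊆ G ∪ ⋃ q ∈ ball n 0 ×ˢ ball n 0, Bad q := by
    intro w hw
    have hw' : BS (pw w) N s := hw
    by_cases hg : w ∈ G
    · exact Or.inl hg
    right
    simp only [hG, Set.mem_ofPred_eq, not_forall] at hg
    obtain ⟨x, hx, v, hv, hxv⟩ := hg
    rw [Set.mem_iUnion₂]
    refine ⟨(x, v), Finset.mem_product.2 ⟨hx, hv⟩, ?_⟩
    have hxN : x ∈ ball N 0 := mem_ball.2 ((mem_ball.1 hx).trans hnN)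
    have hvN : v ∈ ball N 0 := mem_ball.2 ((mem_ball.1 hv).trans hnN)
    have hb := hw' x hxN v hvN
    have hne : r < |TT (pw w) x (x + v) - m v| := by
      by_contra hcon
      exact hxv ⟨not_lt.1 hcon, hb.trans h2⟩
    simp only [hBad]
    split_ifs with hJv
    · exact ⟨hw', lt_of_le_of_lt h1 hne⟩
    · push Not at hJv
      show 3 * (J:ℝ) ≤ TT (pw w) x (x + v)
      by_contra hcon
      push Not at hcon
      have e1 := TT_nonneg (pw_nonneg w) x (x + v)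
      have e2 := hm0 v
      have e3 := hm3 v
      have e4 : (dd 0 v : ℝ) ≤ J := by exact_mod_cast hJv.le
      have e5 : |TT (pw w) x (x + v) - m v| ≤ 3 * (J:ℝ) := by
        rw [abs_le]
        constructor <;> linarith
      linarith
  have hbad : ∀ q ∈ ball n 0 ×ˢ ball n 0, nu.real (Bad q) ≤ 4 * ((J:ℝ) + 1) * (3 / 4) ^ J := by
    intro q hq
    obtain ⟨hq1, hq2⟩ := Finset.mem_product.1 hq
    have hq1' := mem_ball.1 hq1
    have hq2' := mem_ball.1 hq2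
    have g1 : ((1:ℝ) / 2) ^ J ≤ (3 / 4) ^ J := pow_le_pow_left₀ (by norm_num) (by norm_num) J
    have g0 : (0:ℝ) ≤ (3 / 4) ^ J := by positivity
    have gJ : (0:ℝ) ≤ J := Nat.cast_nonneg J
    simp only [hBad]
    split_ifs with hJv
    · obtain ⟨a1, a2⟩ := hmed q.2 (hJ.trans hJv)
      have h := hU1 q.2 q.1 J N s (m q.2) (by omega) hs (by
        have : (133 * J + 2) * dd 0 q.2 ≤ (133 * J + 2) * n := Nat.mul_le_mul_left _ hq2'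
        omega) a1 a2
      refine h.trans ?_
      have g2 : ((1:ℝ) / 2) ^ dd 0 q.2 ≤ (1 / 2) ^ J :=
        pow_le_pow_of_le_one (by norm_num) (by norm_num) hJv
      have g3 : 4 * (J:ℝ) * (1 / 2) ^ dd 0 q.2 ≤ 4 * (J:ℝ) * (3 / 4) ^ J :=
        mul_le_mul_of_nonneg_left (g2.trans g1) (by positivity)
      nlinarith
    · push Not at hJv
      have hd : dd q.1 (q.1 + q.2) ≤ J := by
        have : dd q.1 (q.1 + q.2) = dd 0 q.2 := by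
          have := dd_add 0 q.2 q.1
          rw [zero_add, add_comm q.2 q.1] at this
          exact this
        omega
      refine (straight hd).trans (g1.trans ?_)
      nlinarith
  refine (measureReal_mono hsub (measure_ne_top _ _)).trans ((measureReal_union_le _ _).trans ?_)
  refine add_le_add le_rfl ?_
  refine (measureReal_biUnion_finset_le _ _).trans ((Finset.sum_le_sum hbad).trans ?_)
  rw [Finset.sum_const, nsmul_eq_mul]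
  have hc : (((ball n 0 ×ˢ ball n 0).card : ℕ) : ℝ) ≤ (2 * (n:ℝ) + 1) ^ 4 := by
    rw [Finset.card_product]
    have h := card_ball n
    have h' : ((ball n 0).card : ℝ) ≤ (2 * (n:ℝ) + 1) ^ 2 := by exact_mod_cast h
    push_cast
    calc ((ball n 0).card : ℝ) * ((ball n 0).card : ℝ) ≤ (2 * (n:ℝ) + 1) ^ 2 * (2 * (n:ℝ) + 1) ^ 2 :=
          mul_le_mul h' h' (Nat.cast_nonneg _) (by positivity)
      _ = _ := by ring
  exact mul_le_mul_of_nonneg_right hc (by positivity)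

lemma poly_le {δ : ℝ} (hδ : 0 < δ) {n J : ℕ} (hn : 1 ≤ n) (hJ : (n:ℝ) ^ (δ / 2) < (J:ℝ) + 1) :
    (2 * (n:ℝ) + 1) ^ 4 ≤ 81 * ((J:ℝ) + 1) ^ ⌈8 / δ⌉₊ := by
  have hn' : (1:ℝ) ≤ n := by exact_mod_cast hn
  have hn0 : (0:ℝ) < n := by linarith
  have h1 : (2 * (n:ℝ) + 1) ^ 4 ≤ (3 * (n:ℝ)) ^ 4 := pow_le_pow_left₀ (by positivity) (by linarith) 4
  have h2 : (n:ℝ) ^ 4 ≤ ((J:ℝ) + 1) ^ ⌈8 / δ⌉₊ := by
    have h3 : ((n:ℝ) ^ (δ / 2)) ^ ⌈8 / δ⌉₊ ≤ ((J:ℝ) + 1) ^ ⌈8 / δ⌉₊ :=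
      pow_le_pow_left₀ (by positivity) hJ.le _
    refine le_trans ?_ h3
    rw [← Real.rpow_natCast ((n:ℝ) ^ (δ / 2)), ← Real.rpow_mul hn0.le, ← Real.rpow_natCast (n:ℝ) 4]
    refine Real.rpow_le_rpow_of_exponent_le hn' ?_
    have h4 : 8 / δ ≤ (⌈8 / δ⌉₊ : ℝ) := Nat.le_ceil _
    have h5 : δ / 2 * (8 / δ) ≤ δ / 2 * (⌈8 / δ⌉₊ : ℝ) := mul_le_mul_of_nonneg_left h4 (by positivity)
    have h6 : δ / 2 * (8 / δ) = 4 := by field_simp; norm_num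
    push_cast
    linarith
  calc (2 * (n:ℝ) + 1) ^ 4 ≤ (3 * (n:ℝ)) ^ 4 := h1
    _ = 81 * (n:ℝ) ^ 4 := by ring
    _ ≤ _ := mul_le_mul_of_nonneg_left h2 (by norm_num)

theorem t_U2 (hU1 : S_U1) : S_U2 := by
  classical
  intro hMED b hb hb1 hB
  set m : ℤ × ℤ → ℝ := fun v => if h : 132 ≤ dd 0 v then (hMED v h).choose else 0 with hm
  have hm0 : ∀ v, 0 ≤ m v := by
    intro v
    simp only [hm]
    split_ifs with h
    · exact le_trans (by positivity) (hMED v h).choose_spec.1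
    · exact le_rfl
  have hm3 : ∀ v, m v ≤ 3 * (dd 0 v : ℝ) := by
    intro v
    simp only [hm]
    split_ifs with h
    · exact (hMED v h).choose_spec.2.1
    · positivity
  have hmed : ∀ v : ℤ × ℤ, 132 ≤ dd 0 v → nu.real {w | TT (pw w) 0 v < m v} ≤ 1 / 2 ∧
      nu.real {w | m v < TT (pw w) 0 v} ≤ 1 / 2 := by
    intro v h
    have h1 := (hMED v h).choose_spec.2.2
    have h2 : m v = (hMED v h).choose := by simp only [hm]; rw [dif_pos h]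
    rw [h2]
    exact h1
  refine ⟨m, ?_⟩
  intro ζ hζ
  obtain ⟨δ, hδ⟩ : ∃ δ : ℝ, δ = min 1 ζ / 4 := ⟨_, rfl⟩
  have hmin0 : 0 < min 1 ζ := lt_min one_pos hζ
  have hδ0 : 0 < δ := by rw [hδ]; positivity
  have hδ1 : δ ≤ 1 / 4 := by
    rw [hδ]
    have := min_le_left 1 ζ
    linarith
  have hδζ : δ ≤ ζ / 4 := by
    rw [hδ]
    have := min_le_right 1 ζ
    linarith
  obtain ⟨c, hc, hev⟩ := hB (ζ / 4) (by linarith)
  have hexp : δ / 2 + (1 + δ) * (b + ζ / 4) < b + ζ := by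
    have h1 : δ * ζ ≤ 1 / 4 * ζ := mul_le_mul_of_nonneg_right hδ1 hζ.le
    have h2 : δ * b ≤ δ * 1 := mul_le_mul_of_nonneg_left hb1.le hδ0.le
    nlinarith
  have tN : Tendsto (fun n : ℕ => ⌈(n:ℝ) ^ (1 + δ)⌉₊) atTop atTop :=
    tendsto_nat_ceil_atTop.comp ((tendsto_rpow_atTop (by linarith)).comp tendsto_natCast_atTop_atTop)
  have tJ : Tendsto (fun n : ℕ => ⌊(n:ℝ) ^ (δ / 2)⌋₊) atTop atTop :=
    tendsto_nat_floor_atTop.comp ((tendsto_rpow_atTop (by linarith)).comp tendsto_natCast_atTop_atTop)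
  have e1 := tN.eventually hev
  have e2 := tJ.eventually_ge_atTop 132
  have e3 := tJ.eventually ((err_tendsto ⌈8 / δ⌉₊).eventually_le_const (show (0:ℝ) < c / 2 by linarith))
  have e4 := nat_ev (rpow_small (K := 136) (show δ / 2 < δ by linarith))
  have e5 := nat_ev (rpow_small (K := 133 * 2 ^ (b + ζ / 4)) hexp)
  refine ⟨c / 2, by linarith, ?_⟩
  filter_upwards [e1, e2, e3, e4, e5, eventually_ge_atTop 1] with n f1 f2 f3 f4 f5 hn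
  have hn' : (1:ℝ) ≤ n := by exact_mod_cast hn
  have hn0 : (0:ℝ) < n := by linarith
  obtain ⟨N, hN⟩ : ∃ N : ℕ, N = ⌈(n:ℝ) ^ (1 + δ)⌉₊ := ⟨_, rfl⟩
  obtain ⟨J, hJ⟩ : ∃ J : ℕ, J = ⌊(n:ℝ) ^ (δ / 2)⌋₊ := ⟨_, rfl⟩
  rw [← hN] at f1
  rw [← hJ] at f2 f3
  have hN1 : (n:ℝ) ^ (1 + δ) ≤ N := by rw [hN]; exact Nat.le_ceil _
  have hp1 : (1:ℝ) ≤ (n:ℝ) ^ (1 + δ) := Real.one_le_rpow hn' (by linarith)
  have hN2 : (N:ℝ) ≤ 2 * (n:ℝ) ^ (1 + δ) := by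
    have : (N:ℝ) < (n:ℝ) ^ (1 + δ) + 1 := by rw [hN]; exact Nat.ceil_lt_add_one (by positivity)
    linarith
  have hJ1 : (J:ℝ) ≤ (n:ℝ) ^ (δ / 2) := by rw [hJ]; exact Nat.floor_le (by positivity)
  have hJ2 : (n:ℝ) ^ (δ / 2) < (J:ℝ) + 1 := by rw [hJ]; exact Nat.lt_floor_add_one _
  have hp2 : (1:ℝ) ≤ (n:ℝ) ^ (δ / 2) := Real.one_le_rpow hn' (by linarith)
  have hNn : n + (133 * J + 2) * n ≤ N := by
    have h1 : (n:ℝ) + (133 * (J:ℝ) + 2) * n ≤ N := by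
      have h2 : (n:ℝ) ^ (1 + δ) = n * (n:ℝ) ^ δ := by
        rw [Real.rpow_add hn0, Real.rpow_one]
      have h3 : (n:ℝ) + (133 * (J:ℝ) + 2) * n ≤ n * (136 * (n:ℝ) ^ (δ / 2)) := by
        have h4 : 1 + (133 * (J:ℝ) + 2) ≤ 136 * (n:ℝ) ^ (δ / 2) := by linarith
        calc (n:ℝ) + (133 * (J:ℝ) + 2) * n = n * (1 + (133 * (J:ℝ) + 2)) := by ring
          _ ≤ _ := mul_le_mul_of_nonneg_left h4 hn0.le
      have h5 : (n:ℝ) * (136 * (n:ℝ) ^ (δ / 2)) ≤ n * (n:ℝ) ^ δ := mul_le_mul_of_nonneg_left f4 hn0.le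
      linarith
    exact_mod_cast h1
  have hN1' : (1:ℝ) ≤ N := hp1.trans hN1
  have hs1 : (1:ℝ) ≤ (N:ℝ) ^ (b + ζ / 4) := Real.one_le_rpow hN1' (by linarith)
  have hs2 : (N:ℝ) ^ (b + ζ / 4) ≤ 2 ^ (b + ζ / 4) * (n:ℝ) ^ ((1 + δ) * (b + ζ / 4)) := by
    refine (Real.rpow_le_rpow (by positivity) hN2 (by linarith)).trans (le_of_eq ?_)
    rw [Real.mul_rpow (by norm_num) (by positivity), ← Real.rpow_mul hn0.le]
  have hr1 : 133 * (J:ℝ) * (N:ℝ) ^ (b + ζ / 4) ≤ (n:ℝ) ^ (b + ζ) := by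
    refine le_trans ?_ f5
    calc 133 * (J:ℝ) * (N:ℝ) ^ (b + ζ / 4)
        ≤ 133 * (n:ℝ) ^ (δ / 2) * (2 ^ (b + ζ / 4) * (n:ℝ) ^ ((1 + δ) * (b + ζ / 4))) := by
          gcongr
      _ = 133 * 2 ^ (b + ζ / 4) * ((n:ℝ) ^ (δ / 2) * (n:ℝ) ^ ((1 + δ) * (b + ζ / 4))) := by ring
      _ = _ := by rw [← Real.rpow_add hn0]
  have hJ132 : (132:ℝ) ≤ J := by exact_mod_cast f2
  have hr2 : (N:ℝ) ^ (b + ζ / 4) ≤ (n:ℝ) ^ (b + ζ) := by
    refine le_trans ?_ hr1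
    have : 1 * (N:ℝ) ^ (b + ζ / 4) ≤ 133 * (J:ℝ) * (N:ℝ) ^ (b + ζ / 4) :=
      mul_le_mul_of_nonneg_right (by linarith) (by linarith)
    linarith
  have hr3 : 3 * (J:ℝ) ≤ (n:ℝ) ^ (b + ζ) := by
    refine le_trans ?_ hr1
    have : 133 * (J:ℝ) * 1 ≤ 133 * (J:ℝ) * (N:ℝ) ^ (b + ζ / 4) :=
      mul_le_mul_of_nonneg_left hs1 (by positivity)
    linarith
  have hcore := core hU1 m hm0 hm3 hmed n N J ((N:ℝ) ^ (b + ζ / 4)) ((n:ℝ) ^ (b + ζ)) (by positivity) f2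
    (by
      have : n ≤ n + (133 * J + 2) * n := Nat.le_add_right _ _
      omega) hNn hr1 hr2 hr3
  have hpoly := poly_le hδ0 hn hJ2
  have herr : (2 * (n:ℝ) + 1) ^ 4 * (4 * ((J:ℝ) + 1) * (3 / 4) ^ J) ≤ c / 2 := by
    refine le_trans ?_ f3
    calc (2 * (n:ℝ) + 1) ^ 4 * (4 * ((J:ℝ) + 1) * (3 / 4) ^ J)
        ≤ 81 * ((J:ℝ) + 1) ^ ⌈8 / δ⌉₊ * (4 * ((J:ℝ) + 1) * (3 / 4) ^ J) :=
          mul_le_mul_of_nonneg_right hpoly (by positivity)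
      _ = _ := by rw [pow_succ]; ring
  linarith

end Pool.Agent.H29.SY.U2
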